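import Pool.Agent.H8.AV3.Stmts4

set_option autoImplicit false

namespace Pool.Agent.H71.AV3B

open Polynomial Matrix Pool.AVR Pool.AV3

/-- The substitution `X ↦ 1/X`. -/
noncomputable def jph (F : Type) [Field F] : F[X] →+* RatFunc F :=
  Polynomial.eval₂RingHom (algebraMap F (RatFunc F)) (RatFunc.X)⁻¹

theorem jph_C {F : Type} [Field F] (a : F) : jph F (C a) = algebraMap F[X] (RatFunc F) (C a) := by
  simp only [jph, coe_eval₂RingHom, eval₂_C]
  rfl

theorem jph_reflect {F : Type} [Field F] (p : F[X]) (N : ℕ) (h : p.natDegree ≤ N) :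
    algebraMap F[X] (RatFunc F) (p.reflect N) = RatFunc.X ^ N * jph F p := by
  have hX : (RatFunc.X : RatFunc F) ≠ 0 := RatFunc.X_ne_zero
  let _ : Invertible ((RatFunc.X : RatFunc F)⁻¹) := invertibleOfNonzero (inv_ne_zero hX)
  have key := eval₂_reflect_mul_pow (algebraMap F (RatFunc F)) ((RatFunc.X : RatFunc F)⁻¹) N p h
  rw [invOf_eq_inv, inv_inv] at key
  have e : eval₂ (algebraMap F (RatFunc F)) RatFunc.X (reflect N p) =
      algebraMap F[X] (RatFunc F) (p.reflect N) := by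
    rw [← RatFunc.aeval_X_left_eq_algebraMap]
    rfl
  rw [e] at key
  simp only [jph, coe_eval₂RingHom]
  rw [← key, mul_comm, mul_assoc, ← mul_pow, inv_mul_cancel₀ hX, one_pow, mul_one]

theorem jph_deg {F : Type} [Field F] (p q : F[X]) (N : ℕ)
    (h : algebraMap F[X] (RatFunc F) q = RatFunc.X ^ N * jph F p) :
    p.natDegree ≤ N ∧ q = p.reflect N := by
  have hd : p.natDegree ≤ N := by
    by_contra hlt
    push Not at hlt
    obtain ⟨k, hk⟩ : ∃ k, p.natDegree = N + (k + 1) := ⟨p.natDegree - N - 1, by omega⟩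
    have h1 := jph_reflect p _ le_rfl
    have h2 : p.reflect p.natDegree = X ^ (k + 1) * q := by
      apply RatFunc.algebraMap_injective F
      rw [h1, map_mul, h, map_pow, RatFunc.algebraMap_X, hk]
      ring
    have h3 : (p.reflect p.natDegree).coeff 0 = p.leadingCoeff := by
      rw [coeff_reflect, revAt_le (Nat.zero_le _), Nat.sub_zero]
      rfl
    have h4 : (X ^ (k + 1) * q : F[X]).coeff 0 = 0 := by
      rw [mul_coeff_zero, coeff_X_pow, if_neg (by omega), zero_mul]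
    rw [h2, h4] at h3
    have h5 : p = 0 := leadingCoeff_eq_zero.1 h3.symm
    rw [h5, natDegree_zero] at hlt
    omega
  refine ⟨hd, ?_⟩
  apply RatFunc.algebraMap_injective F
  rw [h, jph_reflect p N hd]

theorem Jc_map {R S : Type} [CommRing R] [CommRing S] (ψ : R →+* S) (τ : R) (c : Fin 10 → R) :
    Jc (ψ τ) (fun i => ψ (c i)) = (ψ (Jc τ c).1, ψ (Jc τ c).2.1, ψ (Jc τ c).2.2) := by
  simp only [Jc, jb4, jb6, map_add, map_sub, map_mul, map_pow, map_neg, map_ofNat]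

theorem Jc_torus {K : Type} [Field K] (τ w u₀ u₁ u₂ : K) (c c' : Fin 10 → K)
    (h0 : c' 0 = w * (u₀ * u₀ * u₀) * c 0)
    (h1 : c' 1 = w * (u₀ * u₀ * u₁) * c 1)
    (h2 : c' 2 = w * (u₀ * u₀ * u₂) * c 2)
    (h3 : c' 3 = w * (u₀ * u₁ * u₁) * c 3)
    (h4 : c' 4 = w * (u₀ * u₁ * u₂) * c 4)
    (h5 : c' 5 = w * (u₀ * u₂ * u₂) * c 5)
    (h6 : c' 6 = w * (u₁ * u₁ * u₁) * c 6)
    (h7 : c' 7 = w * (u₁ * u₁ * u₂) * c 7)
    (h8 : c' 8 = w * (u₁ * u₂ * u₂) * c 8)
    (h9 : c' 9 = w * (u₂ * u₂ * u₂) * c 9) :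
    Jc τ c' = ((w * (u₀ * u₁ * u₂)) ^ 2 * (Jc τ c).1, (w * (u₀ * u₁ * u₂)) ^ 4 * (Jc τ c).2.1,
      (w * (u₀ * u₁ * u₂)) ^ 6 * (Jc τ c).2.2) := by
  simp only [Jc, jb4, jb6, h0, h1, h2, h3, h4, h5, h6, h7, h8, h9, Prod.mk.injEq]
  refine ⟨by ring, by ring, by ring⟩

theorem jin_coord {F : Type} [Field F] (n α β : ℕ) (c : Fin 10 → F[X])
    (hc : c ∈ (Vd n (dv α β) : Set (Fin 10 → F[X]))) (i : Fin 10) :
    algebraMap F[X] (RatFunc F) (cinf n (dv α β) c i) =
      (RatFunc.X : RatFunc F) ^ (ee n (dv α β) i) * jph F (c i) := by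
  unfold cinf
  by_cases h0 : c i = 0
  · rw [h0, reflect_zero, map_zero, map_zero, mul_zero]
  · have h1 := hc i h0
    have h2 : ((c i).natDegree : ℤ) ≤ ee n (dv α β) i := h1
    obtain ⟨m, hm⟩ : ∃ m : ℕ, ee n (dv α β) i = m := ⟨(ee n (dv α β) i).toNat, by
      rw [Int.toNat_of_nonneg (le_trans (Int.natCast_nonneg _) h2)]⟩
    rw [hm] at h2 ⊢
    rw [Int.toNat_natCast, zpow_natCast, jph_reflect]
    exact_mod_cast h2

theorem jin_coord' {F : Type} [Field F] (n α β : ℕ) (c : Fin 10 → F[X])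
    (hc : c ∈ (Vd n (dv α β) : Set (Fin 10 → F[X]))) (i : Fin 10) :
    algebraMap F[X] (RatFunc F) (cinf n (dv α β) c i) =
      (RatFunc.X ^ (n : ℤ) * RatFunc.X ^ (-(2 * (α : ℤ) + β))) *
        (RatFunc.X ^ (dv α β (tr i 0)) * RatFunc.X ^ (dv α β (tr i 1)) *
          RatFunc.X ^ (dv α β (tr i 2))) * jph F (c i) := by
  have hX : (RatFunc.X : RatFunc F) ≠ 0 := RatFunc.X_ne_zero
  rw [jin_coord n α β c hc i]
  congr 1
  rw [← zpow_add₀ hX, ← zpow_add₀ hX, ← zpow_add₀ hX, ← zpow_add₀ hX]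
  congr 1
  unfold ee
  rw [Fin.sum_univ_three, Fin.sum_univ_three]
  have e0 : dv α β 0 = 0 := rfl
  have e1 : dv α β 1 = α := rfl
  have e2 : dv α β 2 = α + β := rfl
  rw [e0, e1, e2]
  ring

theorem JIN_thm : JINStmt := by
  intro F _ h2 n
  have hX : (RatFunc.X : RatFunc F) ≠ 0 := RatFunc.X_ne_zero
  refine ⟨?_, ?_⟩
  · intro α β c hc
    have key := Jc_torus (algebraMap F[X] (RatFunc F) (hf F))
      ((RatFunc.X : RatFunc F) ^ (n : ℤ) * RatFunc.X ^ (-(2 * (α : ℤ) + β)))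
      ((RatFunc.X : RatFunc F) ^ (dv α β 0)) ((RatFunc.X : RatFunc F) ^ (dv α β 1))
      ((RatFunc.X : RatFunc F) ^ (dv α β 2)) (fun i => jph F (c i))
      (fun i => algebraMap F[X] (RatFunc F) (cinf n (dv α β) c i))
      (jin_coord' n α β c hc 0) (jin_coord' n α β c hc 1) (jin_coord' n α β c hc 2)
      (jin_coord' n α β c hc 3) (jin_coord' n α β c hc 4) (jin_coord' n α β c hc 5)
      (jin_coord' n α β c hc 6) (jin_coord' n α β c hc 7) (jin_coord' n α β c hc 8)
      (jin_coord' n α β c hc 9)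
    have hw : (RatFunc.X : RatFunc F) ^ (n : ℤ) * RatFunc.X ^ (-(2 * (α : ℤ) + β)) *
        (RatFunc.X ^ (dv α β 0) * RatFunc.X ^ (dv α β 1) * RatFunc.X ^ (dv α β 2)) =
        RatFunc.X ^ n := by
      rw [← zpow_add₀ hX, ← zpow_add₀ hX, ← zpow_add₀ hX, ← zpow_add₀ hX, ← zpow_natCast]
      congr 1
      have e0 : dv α β 0 = 0 := rfl
      have e1 : dv α β 1 = α := rfl
      have e2 : dv α β 2 = α + β := rfl
      rw [e0, e1, e2]
      ring
    rw [hw, Jc_map] at key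
    have hτ : algebraMap F[X] (RatFunc F) (hf F) = jph F (hf F) := by
      unfold hf
      rw [jph_C]
    rw [hτ, Jc_map] at key
    simp only [Prod.mk.injEq] at key
    obtain ⟨k1, k2, k3⟩ := key
    obtain ⟨d1, r1⟩ := jph_deg _ _ (2 * n) (by rw [k1]; ring)
    obtain ⟨d2, r2⟩ := jph_deg _ _ (4 * n) (by rw [k2]; ring)
    obtain ⟨d3, r3⟩ := jph_deg _ _ (6 * n) (by rw [k3]; ring)
    refine ⟨⟨d1, d2, d3⟩, ?_⟩
    unfold AVS.finf
    rw [← r1, ← r2, ← r3]
  · intro p f hf1 hf2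
    obtain ⟨f1, f2, f3⟩ := hf1
    obtain ⟨g1, g2, g3⟩ := hf2
    have hp : p.natDegree ≤ 2 * n := by
      by_contra hlt
      push Not at hlt
      have h3 : (p ^ 3).natDegree ≤ 6 * n ∨ (p ^ 3).natDegree < 3 * p.natDegree := by
        have e : p ^ 3 = (sh p f).2.2 - (f.2.2 + f.2.1 * p + f.1 * p ^ 2) := by
          simp only [sh]
          ring
        right
        rw [e]
        have b1 : (f.2.1 * p).natDegree ≤ f.2.1.natDegree + p.natDegree := natDegree_mul_le
        have b2 : (f.1 * p ^ 2).natDegree ≤ f.1.natDegree + 2 * p.natDegree :=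
          natDegree_mul_le.trans (Nat.add_le_add_left (natDegree_pow_le) _)
        have b3 : (f.2.2 + f.2.1 * p + f.1 * p ^ 2).natDegree < 3 * p.natDegree := by
          refine lt_of_le_of_lt (natDegree_add_le _ _) (max_lt ?_ (by omega))
          exact lt_of_le_of_lt (natDegree_add_le _ _) (max_lt (by omega) (by omega))
        exact lt_of_le_of_lt (natDegree_sub_le _ _) (max_lt (by omega) b3)
      rw [natDegree_pow] at h3
      omega
    refine ⟨hp, ?_⟩
    have hφ := jph_reflect p _ hp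
    have q1 := jph_reflect _ _ f1
    have q2 := jph_reflect _ _ f2
    have q3 := jph_reflect _ _ f3
    have w1 := jph_reflect _ _ g1
    have w2 := jph_reflect _ _ g2
    have w3 := jph_reflect _ _ g3
    have hinj := RatFunc.algebraMap_injective F
    unfold AVS.finf
    simp only [sh, Prod.mk.injEq] at w1 w2 w3 ⊢
    refine ⟨?_, ?_, ?_⟩
    · apply hinj
      rw [w1]
      simp only [map_add, map_mul, map_ofNat, hφ, q1]
      ring
    · apply hinj
      rw [w2]
      simp only [map_add, map_mul, map_ofNat, map_pow, hφ, q1, q2]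
      ring
    · apply hinj
      rw [w3]
      simp only [map_add, map_mul, map_pow, hφ, q1, q2, q3]
      ring

end Pool.Agent.H71.AV3B
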