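import Pool.Agent.H71.AV3B.TRT
import Pool.Agent.H49.AV3.TRS

set_option autoImplicit false

namespace Pool.Agent.H71.AV3B

open Polynomial Matrix Pool.AVR Pool.AV3 WeierstrassCurve.Affine Pool.Agent.H49.AV3

theorem trg_of (hTRA : TRAStmt) (hTRT : TRTStmt) : TRGStmt := by
  intro K _ _ h2 a b c hsep x₀ y₀ h₀ x₁ y₁ h₁ hy T hTdef hQT hQ3
  subst hTdef
  have hQ := onC_of h₀
  have hT := onC_of h₁
  have hTQ : ¬(x₁ = x₀ ∧ y₁ = y₀) := by
    rintro ⟨rfl, rfl⟩
    exact hQT rfl
  have hxy : ¬(x₁ = x₀ ∧ y₁ = -(-y₀)) := by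
    rw [neg_neg]
    exact hTQ
  obtain ⟨xW, y₃, h₃, hadd, hl1, hl2, hs1, hs2, hs3⟩ := line_rel a b c h₁ (neg_ns h₀) hxy _ rfl
  set m₁ := (E a b c).toAffine.slope x₁ x₀ y₁ (-y₀) with hm₁
  have hW := neg_ns h₃
  have hWQ : (Point.some xW (-y₃) hW : Pt a b c) = Point.some x₀ y₀ h₀ - Point.some x₁ y₁ h₁ := by
    rw [← neg_pt h₃ hW, ← hadd, ← neg_pt h₀ (neg_ns h₀)]
    abel
  have h2y : 2 * y₁ ≠ 0 := mul_ne_zero h2 hy
  have hxy1 : ¬(x₁ = x₁ ∧ y₁ = -y₁) := by
    rintro ⟨-, h⟩
    exact h2y (by linear_combination h)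
  obtain ⟨xt, y4, h4, hadd2, -, hyt, ht1, ht2, ht3⟩ := line_rel a b c h₁ h₁ hxy1 _ rfl
  set t := (E a b c).toAffine.slope x₁ x₁ y₁ y₁ with ht
  have htan := tangent_rel a b c h2 hy t ht
  have hN := neg_ns h4
  have hN2 : (Point.some xt (-y4) hN : Pt a b c) =
      -(Point.some x₁ y₁ h₁ + Point.some x₁ y₁ h₁) := by
    rw [← neg_pt h4 hN, ← hadd2]
  have hWN : ¬(xW = xt ∧ -y₃ = -(-y4)) := by
    rintro ⟨hx, hy'⟩
    have e : (Point.some xW (-y₃) hW : Pt a b c) = Point.some xt y4 h4 :=
      pt_ext hx (by rw [hy', neg_neg])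
    rw [hWQ, ← hadd2] at e
    apply hQ3
    rw [← e]
    abel
  obtain ⟨xp, yp, hp, hadd3, hp1, hp2, hp3, hp4, hp5⟩ := line_rel a b c hW hN hWN _ rfl
  set ms := (E a b c).toAffine.slope xW xt (-y₃) (-y4) with hms
  have hz0 : -y₃ + y₁ + t * (xW - x₁) ≠ 0 := by
    intro hz
    have hWC := onC_of h₃
    unfold OnC at hWC
    have key : (xW - x₁) * ((xW - x₁) * (xW - xt)) = 0 := by
      linear_combination (-(xW ^ 2)) * ht1 + xW * ht2 - ht3 - hWC -
        (y₃ + (y₁ + t * (xW - x₁))) * hz
    have hcase : xW = x₁ → False := by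
      intro hx
      have hy' : -y₃ = -y₁ := by
        rw [hx] at hz
        linear_combination hz
      have e : (Point.some xW (-y₃) hW : Pt a b c) = -Point.some x₁ y₁ h₁ := by
        rw [neg_pt h₁ (neg_ns h₁)]
        exact pt_ext hx hy'
      rw [hWQ] at e
      have h5 : (Point.some x₀ y₀ h₀ : Pt a b c) = 0 := by
        have h6 := congrArg (fun P => P + Point.some x₁ y₁ h₁) e
        simp only [sub_add_cancel, neg_add_cancel] at h6
        exact h6
      exact Point.some_ne_zero h₀ h5
    rcases mul_eq_zero.1 key with h6 | h6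
    · exact hcase (by linear_combination h6)
    · rcases mul_eq_zero.1 h6 with h7 | h7
      · exact hcase (by linear_combination h7)
      · apply hWN
        have hx : xW = xt := by linear_combination h7
        refine ⟨hx, ?_⟩
        rw [hx] at hz
        linear_combination hz + hyt
  refine ⟨xp, yp, hp, _, ?_, hTRA K h2 a b c x₁ y₁ t xt (-y4) m₁ xW (-y₃) x₀ y₀ ms xp yp hy hT
    htan (by linear_combination ht1) (by linear_combination hyt) (by linear_combination hl2)
    (by linear_combination hl1) (by linear_combination hs1) (by linear_combination hs2)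
    (by linear_combination hs3) (by linear_combination hp1) (by linear_combination hp2)
    (by linear_combination hp3) (by linear_combination hp4) (by linear_combination hp5) hz0,
    ?_, ?_⟩
  · rw [← hadd3, hWQ, hN2]
    abel
  · intro m hne hm
    refine ⟨1, one_ne_zero, ?_⟩
    have hmm : m = m₁ := by
      have : x₁ - x₀ ≠ 0 := sub_ne_zero.2 hne
      apply mul_right_cancel₀ this
      linear_combination hm - hl1
    rw [col1, one_smul, hmm]
    funext i
    fin_cases i <;> simp [hA]
  · intro x₂ y₂ h₂ X Y h hsum hx20 hXp M m₂ hM hm2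
    have hXY := onC_of h
    have hneg : ¬(x₁ = X ∧ y₁ = -Y) := by
      rintro ⟨rfl, hY⟩
      have : (Point.some x₁ y₁ h₁ : Pt a b c) + Point.some x₁ Y h = 0 := by
        apply Point.add_of_Y_eq rfl
        rw [negY_E]
        exact hY
      rw [this] at hsum
      exact Point.some_ne_zero h₂ hsum
    obtain ⟨x5, y5, h5, hadd5, hl5, hm5, hs5, -, -⟩ := line_rel a b c h₁ h hneg _ rfl
    have e5 : (Point.some x₂ y₂ h₂ : Pt a b c) = Point.some x5 y5 h5 := by
      rw [hsum, hadd5]
    obtain ⟨hx5, hy5⟩ : x₂ = x5 ∧ y₂ = y5 := by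
      simpa using e5
    subst hx5 hy5
    have hl : (X ≠ x₁ ∧ (E a b c).toAffine.slope x₁ X y₁ Y * (X - x₁) = Y - y₁) ∨
        (X = x₁ ∧ Y = y₁ ∧ (E a b c).toAffine.slope x₁ X y₁ Y = t) := by
      by_cases hX : X = x₁
      · right
        subst hX
        have hYY : (Y - y₁) * (Y + y₁) = 0 := by
          unfold OnC at hXY hT
          linear_combination hXY - hT
        have hY1 : Y + y₁ ≠ 0 := by
          intro h6
          exact hneg ⟨rfl, by linear_combination h6⟩
        have hY : Y = y₁ := by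
          rcases mul_eq_zero.1 hYY with h6 | h6
          · linear_combination h6
          · exact absurd h6 hY1
        subst hY
        exact ⟨rfl, rfl, rfl⟩
      · left
        exact ⟨hX, by linear_combination -hl5⟩
    have key := hTRT K h2 a b c x₁ y₁ t xt (-y4) m₁ xW (-y₃) x₀ y₀ ms xp yp hy hT
      htan (by linear_combination ht1) (by linear_combination hyt) (by linear_combination hl2)
      (by linear_combination hl1) (by linear_combination hs1) (by linear_combination hs2)
      (by linear_combination hs3) (by linear_combination hp1) (by linear_combination hp2)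
      (by linear_combination hp3) (by linear_combination hp4) (by linear_combination hp5) hz0
      X Y M _ x₂ y₂ m₂ hXY hXp hM hl (by linear_combination hs5) hm5 hx20 hm2
    exact ⟨_, key.1, key.2⟩

theorem TRG_thm : TRGStmt := trg_of Pool.Agent.H1.AV3.TRA_thm TRT_thm

end Pool.Agent.H71.AV3B
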