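import Pool.Agent.H8.AV3.Stmts4
import Pool.Agent.H1.AV3.TRA

set_option autoImplicit false

namespace Pool.Agent.H71.AV3B

open Polynomial Matrix Pool.AVR Pool.AV3

/-- The first identity, away from `x₁`. -/
theorem trt_i1 {K : Type} [Field K] (x₁ r k d t X Y : K) (a b c y₁ yW xW ms xp : K)
    (ha : a = t ^ 2 - 3 * x₁ - 2 * r * k + d)
    (hy1 : y₁ = k * (1 - r ^ 2 * d - 2 * t * r)) (hyW : yW = k * (1 + r ^ 2 * d))
    (hb : b = 2 * y₁ * t - 3 * x₁ ^ 2 - 2 * a * x₁)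
    (hc : c = y₁ ^ 2 - x₁ ^ 3 - a * x₁ ^ 2 - b * x₁)
    (hxW : xW = x₁ + 2 * r * k) (hms : ms = t + 2 * r ^ 2 * k)
    (hxp : xp = ms ^ 2 - a - xW - (x₁ + 2 * r * k - d))
    (h : Y ^ 2 = X ^ 3 + a * X ^ 2 + b * X + c) :
    (Y - (y₁ + t * (X - x₁))) * ((X - xW) * (X - xp) + (t - ms) * (Y - (yW + ms * (X - xW)))) =
      (X - x₁) ^ 2 * (Y - (yW + ms * (X - xW))) := by
  subst hxp hms hxW hc hb hyW hy1 ha
  linear_combination (t - (t + 2 * r ^ 2 * k)) * h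

/-- The first identity, at `x₁`. -/
theorem trt_i1' {K : Type} [Field K] (x₁ r k d t : K) (a y₁ yW xW ms xp : K)
    (ha : a = t ^ 2 - 3 * x₁ - 2 * r * k + d)
    (hy1 : y₁ = k * (1 - r ^ 2 * d - 2 * t * r)) (hyW : yW = k * (1 + r ^ 2 * d))
    (hxW : xW = x₁ + 2 * r * k) (hms : ms = t + 2 * r ^ 2 * k)
    (hxp : xp = ms ^ 2 - a - xW - (x₁ + 2 * r * k - d)) :
    (x₁ + 2 * r * k - d - x₁) * ((x₁ - xW) * (x₁ - xp) +
      (t - ms) * (y₁ - (yW + ms * (x₁ - xW)))) +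
      2 * y₁ * (y₁ - (yW + ms * (x₁ - xW))) = 0 := by
  subst hxp hms hxW hyW hy1 ha
  ring

/-- The second identity, away from `x₁`. -/
theorem trt_i2 {K : Type} [Field K] (x₁ r k d t X Y : K) (a b c y₁ yW xW ms xp m₁ x₀ : K)
    (ha : a = t ^ 2 - 3 * x₁ - 2 * r * k + d)
    (hy1 : y₁ = k * (1 - r ^ 2 * d - 2 * t * r)) (hyW : yW = k * (1 + r ^ 2 * d))
    (hb : b = 2 * y₁ * t - 3 * x₁ ^ 2 - 2 * a * x₁)
    (hc : c = y₁ ^ 2 - x₁ ^ 3 - a * x₁ ^ 2 - b * x₁)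
    (hxW : xW = x₁ + 2 * r * k) (hms : ms = t + 2 * r ^ 2 * k)
    (hxp : xp = ms ^ 2 - a - xW - (x₁ + 2 * r * k - d))
    (hm1 : m₁ = t + r * d) (hx0 : x₀ = m₁ ^ 2 - a - x₁ - xW)
    (h : Y ^ 2 = X ^ 3 + a * X ^ 2 + b * X + c) :
    -(2 * y₁) * (X - x₁) ^ 2 *
        ((X - xW) * (X - xp) + (t - ms) * (Y - (yW + ms * (X - xW)))) +
      2 * y₁ * (X - x₁) * (Y - y₁ + m₁ * (X - x₁)) * (Y - (yW + ms * (X - xW))) =
    ((Y - y₁) ^ 2 - (a + x₁ + X + x₀) * (X - x₁) ^ 2) *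
      ((xW - x₁) * (Y - (yW + ms * (X - xW))) + (yW + y₁ + t * (xW - x₁)) * (X - xp)) := by
  subst hx0 hm1 hxp hms hxW hc hb hyW hy1 ha
  linear_combination (2 * (k * (1 - r ^ 2 * d - 2 * t * r)) * (X - x₁) -
    ((2 * r * k) * (Y - (k * (1 + r ^ 2 * d) + (t + 2 * r ^ 2 * k) * (X - (x₁ + 2 * r * k)))) +
      (k * (1 + r ^ 2 * d) + k * (1 - r ^ 2 * d - 2 * t * r) + t * (2 * r * k)) *
      (X - ((t + 2 * r ^ 2 * k) ^ 2 - (t ^ 2 - 3 * x₁ - 2 * r * k + d) - (x₁ + 2 * r * k) -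
        (x₁ + 2 * r * k - d)))) +
    2 * (k * (1 - r ^ 2 * d - 2 * t * r)) * (2 * r * k)) * h

/-- The second identity, at `x₁`. -/
theorem trt_i2' {K : Type} [Field K] (x₁ r k d t : K) (a y₁ yW xW ms xp m₁ x₀ : K)
    (ha : a = t ^ 2 - 3 * x₁ - 2 * r * k + d)
    (hy1 : y₁ = k * (1 - r ^ 2 * d - 2 * t * r)) (hyW : yW = k * (1 + r ^ 2 * d))
    (hxW : xW = x₁ + 2 * r * k) (hms : ms = t + 2 * r ^ 2 * k)
    (hxp : xp = ms ^ 2 - a - xW - (x₁ + 2 * r * k - d))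
    (hm1 : m₁ = t + r * d) (hx0 : x₀ = m₁ ^ 2 - a - x₁ - xW) :
    -(2 * y₁) * ((x₁ - xW) * (x₁ - xp) + (t - ms) * (y₁ - (yW + ms * (x₁ - xW)))) +
      2 * y₁ * (t + m₁) * (y₁ - (yW + ms * (x₁ - xW))) =
    (x₁ + 2 * r * k - d - x₀) *
      ((xW - x₁) * (y₁ - (yW + ms * (x₁ - xW))) +
        (yW + y₁ + t * (xW - x₁)) * (x₁ - xp)) := by
  subst hx0 hm1 hxp hms hxW hyW hy1 ha
  ring

theorem TRT_thm : TRTStmt := by
  intro K _ h2 a b c x₁ y₁ t xt yt m₁ xW yW x₀ y₀ ms xp yp hy hT hQ hxt hyt hyW hy0 s1 s2 _ k1 hyp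
    k3 k4 _ hz X Y M l x₂ y₂ m₂ hXY hXp hM hl hx2 hy2 hx20 hm2
  obtain ⟨r, k, d, hk, q1, q2, q3, q4, q5, q6⟩ := Pool.Agent.H1.AV3.tra_rel h2 a b x₁ y₁ t xt yt m₁
    xW yW x₀ ms xp hQ hxt hyt hyW s1 s2 k1 k3 k4 hz
  have qa : a = t ^ 2 - 3 * x₁ - 2 * r * k + d := by linear_combination hxt - q2
  have qb : b = 2 * y₁ * t - 3 * x₁ ^ 2 - 2 * a * x₁ := by linear_combination -hQ
  have hT' : y₁ ^ 2 = x₁ ^ 3 + a * x₁ ^ 2 + b * x₁ + c := hT
  have hXY' : Y ^ 2 = X ^ 3 + a * X ^ 2 + b * X + c := hXY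
  have qc : c = y₁ ^ 2 - x₁ ^ 3 - a * x₁ ^ 2 - b * x₁ := by linear_combination -hT'
  have qx0 : x₀ = m₁ ^ 2 - a - x₁ - xW := by linear_combination s1
  have qxp : xp = ms ^ 2 - a - xW - (x₁ + 2 * r * k - d) := by linear_combination k3 - q2
  have hB : X - xp ≠ 0 := sub_ne_zero.2 hXp
  have hD : (M - ms) * (X - xp) = Y - (yW + ms * (X - xW)) := by linear_combination hM - hyp
  have key : (x₂ - x₁) * ((X - xW) + (t - ms) * (M - ms)) = -(2 * y₁) * (M - ms) ∧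
      -(2 * y₁) * ((X - xW) + (t - ms) * (M - ms)) + 2 * y₁ * (l + m₁) * (M - ms) =
        (x₂ - x₀) * ((xW - x₁) * (M - ms) + (yW + y₁ + t * (xW - x₁))) := by
    rcases hl with ⟨hX1, hl⟩ | ⟨hX1, hY1, hl⟩
    · have hA : X - x₁ ≠ 0 := sub_ne_zero.2 hX1
      have i1 := trt_i1 x₁ r k d t X Y a b c y₁ yW xW ms xp qa q5 q6 qb qc q1 q3 qxp hXY'
      have i2 := trt_i2 x₁ r k d t X Y a b c y₁ yW xW ms xp m₁ x₀ qa q5 q6 qb qc q1 q3 qxp q4 qx0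
        hXY'
      have hE : (X - x₁) ^ 2 * (x₂ - x₁) = -(2 * y₁) * (Y - (y₁ + t * (X - x₁))) := by
        rw [hx2]
        linear_combination (l * (X - x₁) + Y - y₁) * hl + hXY' - hT' - (X - x₁) * hQ
      have hF : (X - x₁) ^ 2 * (x₂ - x₀) =
          (Y - y₁) ^ 2 - (a + x₁ + X + x₀) * (X - x₁) ^ 2 := by
        rw [hx2]
        linear_combination (l * (X - x₁) + Y - y₁) * hl
      refine ⟨?_, ?_⟩
      · apply mul_left_cancel₀ (mul_ne_zero (pow_ne_zero 2 hA) hB)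
        linear_combination ((X - x₁) ^ 2 * (x₂ - x₁) * (t - ms) + 2 * y₁ * (X - x₁) ^ 2) * hD +
          ((X - xW) * (X - xp) + (t - ms) * (Y - (yW + ms * (X - xW)))) * hE - 2 * y₁ * i1
      · apply mul_left_cancel₀ (mul_ne_zero (pow_ne_zero 2 hA) hB)
        linear_combination i2 + (-(2 * y₁) * (X - x₁) ^ 2 * (t - ms) +
          2 * y₁ * (l + m₁) * (X - x₁) ^ 2 - (X - x₁) ^ 2 * (x₂ - x₀) * (xW - x₁)) * hD +
          2 * y₁ * (X - x₁) * (Y - (yW + ms * (X - xW))) * hl -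
          ((xW - x₁) * (Y - (yW + ms * (X - xW))) + (yW + y₁ + t * (xW - x₁)) * (X - xp)) * hF
    · have i1 := trt_i1' x₁ r k d t a y₁ yW xW ms xp qa q5 q6 q1 q3 qxp
      have i2 := trt_i2' x₁ r k d t a y₁ yW xW ms xp m₁ x₀ qa q5 q6 q1 q3 qxp q4 qx0
      have hx2' : x₂ = x₁ + 2 * r * k - d := by
        rw [hx2, hl, hX1]
        linear_combination q2 - hxt
      rw [hX1] at hD hB ⊢
      rw [hY1] at hD
      rw [hl, hx2']
      refine ⟨?_, ?_⟩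
      · apply mul_left_cancel₀ hB
        linear_combination i1 + ((x₁ + 2 * r * k - d - x₁) * (t - ms) + 2 * y₁) * hD
      · apply mul_left_cancel₀ hB
        linear_combination i2 + (-(2 * y₁) * (t - ms) + 2 * y₁ * (t + m₁) -
          (x₁ + 2 * r * k - d - x₀) * (xW - x₁)) * hD
  obtain ⟨e1, e2⟩ := key
  have e3 : m₂ * ((X - xW) + (t - ms) * (M - ms)) =
      m₁ * ((X - xW) + (t - ms) * (M - ms)) + (xW - x₁) * (M - ms) +
        (yW + y₁ + t * (xW - x₁)) := by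
    have hx20' : x₂ - x₀ ≠ 0 := sub_ne_zero.2 hx20
    apply mul_left_cancel₀ hx20'
    linear_combination e2 + ((X - xW) + (t - ms) * (M - ms)) * (hm2 - hy0 - hy2) -
      (l + m₁) * e1
  refine ⟨?_, ?_⟩
  · intro h0
    rw [h0] at e1 e3
    have hM0 : M - ms = 0 := by
      have : -(2 * y₁) ≠ 0 := neg_ne_zero.2 (mul_ne_zero h2 hy)
      rcases mul_eq_zero.1 (show -(2 * y₁) * (M - ms) = 0 by rw [← e1, mul_zero]) with h | h
      · exact absurd h this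
      · exact h
    rw [hM0] at e3
    apply hz
    linear_combination -e3
  · funext i
    fin_cases i
    · simp only [hA, Matrix.mulVec, dotProduct, Fin.sum_univ_three, Matrix.of_apply,
        Matrix.cons_val, Pi.smul_apply, smul_eq_mul, Fin.zero_eta]
      linear_combination -e3
    · simp only [hA, Matrix.mulVec, dotProduct, Fin.sum_univ_three, Matrix.of_apply,
        Matrix.cons_val, Pi.smul_apply, smul_eq_mul, Fin.mk_one]
      linear_combination -e1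
    · simp only [hA, Matrix.mulVec, dotProduct, Fin.sum_univ_three, Matrix.of_apply,
        Matrix.cons_val, Pi.smul_apply, smul_eq_mul, Fin.reduceFinMk]
      ring

end Pool.Agent.H71.AV3B
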